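import Pool.Agent.W_6acff7b_h70.Main2

/-!
# Logarithmic diameter for random Cayley graphs of alternating groups with very few generators

Let `m : ℕ → ℕ` satisfy `m n ≥ 100 log log n` for all large `n`.  If `x_1, ..., x_{m n}` are independent uniformly random
elements of `A_n = Alt(n)`, then with probability tending to `1` as `n → ∞` the Cayley graph
`Cay(A_n; x_1^{±1}, ..., x_{m n}^{±1})` is connected and has diameter at most `20000 log |A_n|`.

The probability is written as (number of good `m n`-tuples) / (number of `m n`-tuples).
-/

open Filter Topology Pool.Agent.RCG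

namespace Pool.Agent.Results.MP_6acff7_al.LogDiameterFewGenerators

theorem result (m : ℕ → ℕ) (hm : ∀ᶠ n : ℕ in atTop, 100 * Real.log (Real.log n) ≤ m n) :
    Tendsto (fun n : ℕ =>
      (Nat.card {x : Fin (m n) → alternatingGroup (Fin n) //
          (cayleyGraph x).Connected ∧
          ((cayleyGraph x).diam : ℝ) ≤
            20000 * Real.log (Nat.card (alternatingGroup (Fin n)))} : ℝ) /
        Nat.card (Fin (m n) → alternatingGroup (Fin n))) atTop (𝓝 1) :=
  main_result2 m hm

end Pool.Agent.Results.MP_6acff7_al.LogDiameterFewGenerators
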