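import Pool.Agent.W_6acff7c_h33.MainAll

/-!
# Logarithmic diameter for random Cayley graphs of `PSL_n(q)` with very few generators

For every `ε > 0` there is `N` such that for all `n ≥ N`, every finite field `F` and every
`m ≥ 2 log log n`: if `x_1, ..., x_m` are independent uniformly random elements of `G = PSL_n(F)`, then
with probability at least `1 - ε` the Cayley graph `Cay(G; x_1^{±1}, ..., x_m^{±1})` is connected and has
diameter at most `6 log |G|`.

The probability is written as (number of good `m`-tuples) / (number of `m`-tuples).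
-/

open Pool.Agent.RCG

namespace Pool.Agent.Results.MP_6acff7_al.LogDiameterPSL

theorem result (ε : ℝ) (hε : 0 < ε) : ∃ N : ℕ, ∀ n : ℕ, N ≤ n →
    ∀ (F : Type) [Field F] [Fintype F] (m : ℕ), 2 * Real.log (Real.log n) ≤ m →
    1 - ε ≤ (Nat.card {x : Fin m → Matrix.ProjectiveSpecialLinearGroup (Fin n) F //
        (cayleyGraph x).Connected ∧ ((cayleyGraph x).diam : ℝ) ≤
          6 * Real.log (Nat.card (Matrix.ProjectiveSpecialLinearGroup (Fin n) F))} : ℝ) /
      Nat.card (Fin m → Matrix.ProjectiveSpecialLinearGroup (Fin n) F) := by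
  obtain ⟨N, hN⟩ := Pool.Agent.RCL.main_PSL_all ε hε
  exact ⟨N, fun n hn F _ _ m hm => hN n hn F m hm⟩

end Pool.Agent.Results.MP_6acff7_al.LogDiameterPSL
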