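import Pool.Agent.W_MP_6acff7_h70.Main

/-!
# Random Cayley graphs of the alternating groups have nearly logarithmic diameter

For every fixed `m ≥ 250`: if `x_1, ..., x_m` are independent uniformly random elements of `A_n = Alt(n)`, then with
probability tending to `1` as `n → ∞` the Cayley graph `Cay(A_n; x_1^{±1}, ..., x_m^{±1})` is connected and has diameter
at most `(log |A_n|)^(1 + 140/m)`.

The probability is written as (number of good `m`-tuples) / (number of `m`-tuples).
-/

open Filter Topology Pool.Agent.RCG

namespace Pool.Agent.Results.MP_6acff7_al.NearLogDiameter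

theorem result (m : ℕ) (hm : 250 ≤ m) :
    Tendsto (fun n : ℕ =>
      (Nat.card {x : Fin m → alternatingGroup (Fin n) //
          (cayleyGraph x).Connected ∧
          ((cayleyGraph x).diam : ℝ) ≤
            Real.log (Nat.card (alternatingGroup (Fin n))) ^ (1 + 140 / (m : ℝ))} : ℝ) /
        Nat.card (Fin m → alternatingGroup (Fin n))) atTop (𝓝 1) :=
  main_result m hm

end Pool.Agent.Results.MP_6acff7_al.NearLogDiameter
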